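import Pool.Agent.Lib.MP_36a309_al.Defs
import Pool.Agent.Lib.MP_36a309_al.FamA

/-!
For every field `k`, the first Betti number `b_1(R_Γ)` is unbounded among the numerical semigroups
`Γ` of embedding dimension 8 that are almost symmetric (hence nearly Gorenstein) and not symmetric.
-/

set_option autoImplicit false

namespace Pool.Agent.Results.MP_36a309_al.AlmostSymmetricProper

open Pool.Agent.Lib.MP_36a309_al

universe u

theorem result (k : Type u) [Field k] (C : ℕ) :
    ∃ Γ : NumSgp 8, Γ.IsAlmostSymmetric ∧ Γ.IsNearlyGorenstein ∧ ¬ Γ.IsSymmetric ∧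
      C < Γ.betti k 1 := by
  have hN : 2 ≤ C + 2 := by omega
  refine ⟨(FamA.ok hN).sgp, FamA.almost hN, FamA.nearly hN, FamA.not_symm hN, ?_⟩
  have := FamA.betti k hN
  omega

end Pool.Agent.Results.MP_36a309_al.AlmostSymmetricProper
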