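import Pool.Agent.Lib.MP_36a309_al.Defs
import Pool.Agent.Lib.MP_36a309_al.FamB

/-!
For every field `k`, the first Betti number `b_1(R_Γ)` is unbounded among the numerical semigroups
`Γ` of embedding dimension 8 that are nearly Gorenstein and not almost symmetric.
-/

set_option autoImplicit false

namespace Pool.Agent.Results.MP_36a309_al.NearlyGorensteinProper

open Pool.Agent.Lib.MP_36a309_al

universe u

theorem result (k : Type u) [Field k] (C : ℕ) :
    ∃ Γ : NumSgp 8, Γ.IsNearlyGorenstein ∧ ¬ Γ.IsAlmostSymmetric ∧ C < Γ.betti k 1 := by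
  have hn : 2 ≤ C + 2 := by omega
  refine ⟨(FamB.ok hn).sgp, FamB.nearly hn, FamB.not_almost hn, ?_⟩
  have := FamB.betti k hn
  omega

end Pool.Agent.Results.MP_36a309_al.NearlyGorensteinProper
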