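import Pool.Agent.Lib.MP_36a309_al.Defs
import Pool.Agent.Lib.MP_36a309_al.Family

/-!
For every field `k`, the first Betti number `b_1(R_Γ)` is unbounded among the symmetric (hence
almost symmetric and nearly Gorenstein) numerical semigroups `Γ` of embedding dimension 8.
-/

namespace Pool.Agent.Results.MP_36a309_al.SymmetricUnbounded

open Pool.Agent.Lib.MP_36a309_al

universe u

theorem result (k : Type u) [Field k] (C : ℕ) :
    ∃ Γ : NumSgp 8, Γ.IsSymmetric ∧ Γ.IsAlmostSymmetric ∧ Γ.IsNearlyGorenstein ∧
      C < Γ.betti k 1 := by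
  have hN : 2 ≤ C + 2 := by omega
  refine ⟨fam (C + 2) hN, fam_symmetric hN, fam_almostSymmetric hN, fam_nearlyGorenstein hN, ?_⟩
  have := fam_betti k hN
  omega

end Pool.Agent.Results.MP_36a309_al.SymmetricUnbounded
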